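import Pool.Agent.Helper2.CF.Defs

/-!
Block CF-2b (project CF for MP_b8862a_ag, leader helper2): the adjoint for the Hermitian form as a map of the Lie algebra.
-/

open Module LieModule LieAlgebra LieAlgebra.IsKilling

namespace CF

open MTP MTP.MF

section lie

variable {V : Type*} [AddCommGroup V] [Module ℂ V] [FiniteDimensional ℂ V]
  {L : Type*} [LieRing L] [LieAlgebra ℂ L] [FiniteDimensional ℂ L] [IsKilling ℂ L]
  {H : LieSubalgebra ℂ L} [H.IsCartanSubalgebra] [LieRingModule L V] [LieModule ℂ L V]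
  {b : (rootSystem H).Base} {es fs : H.root → L} {S : V →ₗ[ℂ] V →ₗ⋆[ℂ] ℂ} {θ : L → L}

private def Ad_h4 (S : V →ₗ[ℂ] V →ₗ⋆[ℂ] ℂ) (x y : L) : Prop := ∀ u v : V, S ⁅x, u⁆ v = S u ⁅y, v⁆

omit [FiniteDimensional ℂ V] [FiniteDimensional ℂ L] [IsKilling ℂ L] [LieAlgebra ℂ L] [LieModule ℂ L V] in
private lemma ad_add_h4 {x y x' y' : L} (h : Ad_h4 S x y) (h' : Ad_h4 S x' y') : Ad_h4 S (x + x') (y + y') := by
  intro u v
  rw [add_lie, add_lie, map_add, map_add, LinearMap.add_apply, h u v, h' u v]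

omit [FiniteDimensional ℂ V] [FiniteDimensional ℂ L] [IsKilling ℂ L] in
private lemma ad_smul_h4 {x y : L} (h : Ad_h4 S x y) (c : ℂ) : Ad_h4 S (c • x) (starRingEnd ℂ c • y) := by
  intro u v
  rw [smul_lie, smul_lie, map_smul, LinearMap.smul_apply, LinearMap.map_smulₛₗ, h u v, Complex.conj_conj]

omit [FiniteDimensional ℂ V] [FiniteDimensional ℂ L] [IsKilling ℂ L] [LieAlgebra ℂ L] [LieModule ℂ L V] in
private lemma ad_lie_h4 {x y x' y' : L} (h : Ad_h4 S x y) (h' : Ad_h4 S x' y') : Ad_h4 S ⁅x, x'⁆ ⁅y', y⁆ := by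
  intro u v
  rw [lie_lie, lie_lie, map_sub, map_sub, LinearMap.sub_apply, h, h', h', h]

omit [FiniteDimensional ℂ V] [LieModule ℂ L V] in
private lemma ad_symm_h4 (F : HF b es fs S) {x y : L} (h : Ad_h4 S x y) : Ad_h4 S y x := by
  intro u v
  rw [F.herm v ⁅y, u⁆, ← h v u, ← F.herm]

omit [FiniteDimensional ℂ V] [LieModule ℂ L V] in
private lemma ad_uniq_h4 (hfaith : ∀ x : L, (∀ u : V, ⁅x, u⁆ = 0) → x = 0) (F : HF b es fs S) {x y y' : L}
    (h : Ad_h4 S x y) (h' : Ad_h4 S x y') : y = y' := by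
  rw [← sub_eq_zero]
  apply hfaith
  intro v
  apply F.nd
  intro u
  have h1 : S u ⁅y - y', v⁆ = 0 := by
    rw [sub_lie, map_sub, ← h u v, ← h' u v, sub_self]
  rw [F.herm, h1, map_zero]

/-- CF-2b: the adjoint as a map of the Lie algebra. -/
theorem exists_TH (hfaith : ∀ x : L, (∀ u : V, ⁅x, u⁆ = 0) → x = 0) (G : Gen b es fs)
    (hgen : ∀ M : LieSubalgebra ℂ L, (∀ i ∈ b.support, es i ∈ M) → (∀ i ∈ b.support, fs i ∈ M) → M = ⊤)
    (F : HF b es fs S) : ∃ θ : L → L, TH b es fs S θ := by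
  have hef : ∀ i ∈ b.support, Ad_h4 S (es i) (fs i) := fun i hi u v => F.ef i hi u v
  let M : LieSubalgebra ℂ L :=
    { carrier := {x | ∃ y, Ad_h4 S x y}
      add_mem' := by
        rintro x x' ⟨y, h⟩ ⟨y', h'⟩
        exact ⟨y + y', ad_add_h4 h h'⟩
      zero_mem' := ⟨0, fun u v => by rw [zero_lie, zero_lie, map_zero, map_zero, LinearMap.zero_apply]⟩
      smul_mem' := by
        rintro c x ⟨y, h⟩
        exact ⟨starRingEnd ℂ c • y, ad_smul_h4 h c⟩
      lie_mem' := by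
        rintro x x' ⟨y, h⟩ ⟨y', h'⟩
        exact ⟨⁅y', y⁆, ad_lie_h4 h h'⟩ }
  have hM : M = ⊤ := hgen M (fun i hi => ⟨fs i, hef i hi⟩) (fun i hi => ⟨es i, ad_symm_h4 F (hef i hi)⟩)
  have hex : ∀ x : L, ∃ y, Ad_h4 S x y := by
    intro x
    have : x ∈ M := by rw [hM]; exact LieSubalgebra.mem_top x
    exact this
  choose θ hθ using hex
  have huniq : ∀ x y, Ad_h4 S x y → θ x = y := fun x y h => ad_uniq_h4 hfaith F (hθ x) h
  have hadd : ∀ x y, θ (x + y) = θ x + θ y := fun x y => huniq _ _ (ad_add_h4 (hθ x) (hθ y))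
  have hsmul : ∀ (c : ℂ) x, θ (c • x) = starRingEnd ℂ c • θ x := fun c x => huniq _ _ (ad_smul_h4 (hθ x) c)
  have hlie : ∀ x y, θ ⁅x, y⁆ = ⁅θ y, θ x⁆ := fun x y => huniq _ _ (ad_lie_h4 (hθ x) (hθ y))
  have hinv : ∀ x, θ (θ x) = x := fun x => huniq _ _ (ad_symm_h4 F (hθ x))
  have he : ∀ i ∈ b.support, θ (es i) = fs i := fun i hi => huniq _ _ (hef i hi)
  have hf : ∀ i ∈ b.support, θ (fs i) = es i := fun i hi => huniq _ _ (ad_symm_h4 F (hef i hi))
  have hco : ∀ i ∈ b.support, θ ((coroot i.1 : H) : L) = ((coroot i.1 : H) : L) := by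
    intro i hi
    rw [← (G.tr i hi).lie_e_f, hlie, he i hi, hf i hi]
  refine ⟨θ, hadd, hsmul, hlie, hinv, fun x u v => hθ x u v, he, hf, ?_⟩
  intro α x hx
  -- the elements of `H` that act as they should
  let N : Submodule ℂ H :=
    { carrier := {h | ⁅(h : L), θ x⁆ = (-(α.1 h)) • θ x}
      add_mem' := by
        intro h h' hh hh'
        have h1 : ⁅(h : L), θ x⁆ = (-(α.1 h)) • θ x := hh
        have h2 : ⁅(h' : L), θ x⁆ = (-(α.1 h')) • θ x := hh'
        have h3 : α.1 (h + h') = α.1 h + α.1 h' := map_add (Weight.toLinear ℂ H L α.1) h h'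
        change ⁅(h : L) + (h' : L), θ x⁆ = (-(α.1 (h + h'))) • θ x
        rw [h3, add_lie, h1, h2, neg_add, add_smul]
      zero_mem' := by
        have h3 : α.1 (0 : H) = 0 := map_zero (Weight.toLinear ℂ H L α.1)
        change ⁅(0 : L), θ x⁆ = (-(α.1 (0 : H))) • θ x
        rw [h3, zero_lie, neg_zero, zero_smul]
      smul_mem' := by
        intro c h hh
        have h1 : ⁅(h : L), θ x⁆ = (-(α.1 h)) • θ x := hh
        have h3 : α.1 (c • h) = c • α.1 h := map_smul (Weight.toLinear ℂ H L α.1) c h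
        change ⁅c • (h : L), θ x⁆ = (-(α.1 (c • h))) • θ x
        rw [h3, smul_lie, h1, smul_smul, smul_eq_mul, mul_neg] }
  have hN : N = ⊤ := by
    have h1 : Submodule.span ℂ ((rootSystem H).coroot '' b.support) = ⊤ := by
      rw [b.span_coroot_support]
      exact RootPairing.IsRootSystem.span_coroot_eq_top
    rw [eq_top_iff, ← h1, Submodule.span_le]
    rintro _ ⟨i, hi, rfl⟩
    change ⁅((coroot i.1 : H) : L), θ x⁆ = (-(α.1 (coroot i.1))) • θ x
    obtain ⟨z, hz⟩ : ∃ z : ℤ, α.1 (coroot i.1) = (z : ℂ) := ⟨_, apply_coroot_eq_cast i.1 α.1⟩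
    have h2 : ⁅((coroot i.1 : H) : L), θ x⁆ = θ ⁅x, ((coroot i.1 : H) : L)⁆ := by
      rw [hlie, hco i hi]
    have h3 : ⁅x, ((coroot i.1 : H) : L)⁆ = (-(z : ℂ)) • x := by
      rw [← lie_skew, lie_root hx, hz, neg_smul]
    rw [h2, h3, hsmul, hz, map_neg, map_intCast]
  have hall : ∀ h : H, ⁅(h : L), θ x⁆ = (-(α.1 h)) • θ x := by
    intro h
    have : h ∈ N := by rw [hN]; trivial
    exact this
  apply weightSpace_le_genWeightSpace
  rw [mem_weightSpace]
  intro h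
  exact hall h

end lie

end CF
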